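import Pool.Agent.W323.PT.Stm

/-!
# PT-Hex: the hexagon pattern
-/

set_option autoImplicit false

namespace Pool.Agent.W933.PT

open Pool.Agent.W323.PT

lemma cyc (a b c : Pt) : o a b c = o b c a := by unfold o; ring

lemma cyc' (a b c : Pt) : o a b c = o c a b := by unfold o; ring

lemma o_last (a b : Pt) : o a b b = 0 := by unfold o; ring

lemma seg1 (t1 t3 t4 t6 u v : Pt) (hS : 0 < o t1 t3 t6 + o t3 t4 t6) :
    (o t1 t3 t6 + o t3 t4 t6) * o (X t1 t4 t3 t6) u v =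
      o t3 t4 t6 * o u v t1 + o t1 t3 t6 * o u v t4 := by
  have h1 : o t3 t6 t1 - o t3 t6 t4 = o t1 t3 t6 + o t3 t4 t6 := by unfold o; ring
  have h2 : o t3 t6 t1 = o t1 t3 t6 := by unfold o; ring
  unfold X
  rw [h1, h2]
  set S := o t1 t3 t6 + o t3 t4 t6 with hSdef
  set s := o t1 t3 t6 / S with hs
  have h3 : o (t1 + s • (t4 - t1)) u v = (1 - s) * o u v t1 + s * o u v t4 := by
    unfold o
    simp only [Prod.fst_add, Prod.snd_add, Prod.smul_fst, Prod.smul_snd, Prod.fst_sub,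
      Prod.snd_sub, smul_eq_mul]
    ring
  have h4 : S * s = o t1 t3 t6 := by rw [hs]; field_simp
  have h5 : S * (1 - s) = o t3 t4 t6 := by rw [mul_sub, mul_one, h4, hSdef]; ring
  rw [h3]
  calc S * ((1 - s) * o u v t1 + s * o u v t4) = (S * (1 - s)) * o u v t1 + (S * s) * o u v t4 := by
        ring
    _ = _ := by rw [h4, h5]

lemma seg2 (t1 t3 t4 t6 u v : Pt) :
    o t3 t4 t6 * o u v t1 + o t1 t3 t6 * o u v t4 =
      o t1 t4 t6 * o u v t3 + o t1 t3 t4 * o u v t6 := by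
  unfold o; ring

lemma pluck (c u v w t : Pt) :
    o c u v * o c w t - o c u w * o c v t + o c u t * o c v w = 0 := by
  unfold o; ring

theorem hex : S_Hex := by
  intro t1 t2 r1 x r2 t3 t4 r3 y r4 t5 t6 z w hL hD
  have H1 : ∀ i j k : Fin 13, i < j → j < k → 0 < o (![t1, t2, r1, x, r2, t3, t4, r3, y, r4, t5, t6, z] i)
      (![t1, t2, r1, x, r2, t3, t4, r3, y, r4, t5, t6, z] j)
      (![t1, t2, r1, x, r2, t3, t4, r3, y, r4, t5, t6, z] k) :=
    fun i j k hij hjk => hL _ (Or.inl rfl) i j k hij hjk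
  have H2 : ∀ i j k : Fin 13, i < j → j < k → 0 < o (![t1, t2, r1, x, r2, t3, t4, r3, y, r4, t5, t6, w] i)
      (![t1, t2, r1, x, r2, t3, t4, r3, y, r4, t5, t6, w] j)
      (![t1, t2, r1, x, r2, t3, t4, r3, y, r4, t5, t6, w] k) :=
    fun i j k hij hjk => hL _ (Or.inr rfl) i j k hij hjk
  have hA : 0 < o t1 t3 t6 := H1 0 5 11 (by decide) (by decide)
  have hB : 0 < o t3 t4 t6 := H1 5 6 11 (by decide) (by decide)
  have hC : 0 < o t1 t3 t4 := H1 0 5 6 (by decide) (by decide)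
  have hE : 0 < o t1 t4 t6 := H1 0 6 11 (by decide) (by decide)
  have hS : 0 < o t1 t3 t6 + o t3 t4 t6 := by linarith
  obtain ⟨c, hc⟩ : ∃ c, c = X t1 t4 t3 t6 := ⟨_, rfl⟩
  have e1 : ∀ u v, (o t1 t3 t6 + o t3 t4 t6) * o c u v =
      o t3 t4 t6 * o u v t1 + o t1 t3 t6 * o u v t4 := by
    intro u v; rw [hc]; exact seg1 t1 t3 t4 t6 u v hS
  have e2 : ∀ u v, (o t1 t3 t6 + o t3 t4 t6) * o c u v =
      o t1 t4 t6 * o u v t3 + o t1 t3 t4 * o u v t6 := by
    intro u v; rw [e1, seg2]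
  have P1 : ∀ u v, 0 < o u v t1 → 0 ≤ o u v t4 → 0 < o c u v := by
    intro u v h h'
    have h2 := e1 u v
    have h3 : 0 < o t3 t4 t6 * o u v t1 + o t1 t3 t6 * o u v t4 := by positivity
    rw [← h2] at h3
    exact (mul_pos_iff_of_pos_left hS).1 h3
  have P2 : ∀ u v, 0 < o u v t3 → 0 < o u v t6 → 0 < o c u v := by
    intro u v h h'
    have h2 := e2 u v
    have h3 : 0 < o t1 t4 t6 * o u v t3 + o t1 t3 t4 * o u v t6 := by positivity
    rw [← h2] at h3
    exact (mul_pos_iff_of_pos_left hS).1 h3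
  rw [← hc]
  -- simple brackets
  have b12 : 0 < o c r1 r2 := P2 _ _ (H1 2 4 5 (by decide) (by decide))
    (H1 2 4 11 (by decide) (by decide))
  have b1x : 0 < o c r1 x := P2 _ _ (H1 2 3 5 (by decide) (by decide))
    (H1 2 3 11 (by decide) (by decide))
  have bx2 : 0 < o c x r2 := P2 _ _ (H1 3 4 5 (by decide) (by decide))
    (H1 3 4 11 (by decide) (by decide))
  have b34 : 0 < o c r3 r4 := P1 _ _ (by rw [cyc']; exact H1 0 7 9 (by decide) (by decide))
    (by rw [cyc']; exact (H1 6 7 9 (by decide) (by decide)).le)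
  have b3y : 0 < o c r3 y := P1 _ _ (by rw [cyc']; exact H1 0 7 8 (by decide) (by decide))
    (by rw [cyc']; exact (H1 6 7 8 (by decide) (by decide)).le)
  have by4 : 0 < o c y r4 := P1 _ _ (by rw [cyc']; exact H1 0 8 9 (by decide) (by decide))
    (by rw [cyc']; exact (H1 6 8 9 (by decide) (by decide)).le)
  have b3z : 0 < o c r3 z := P1 _ _ (by rw [cyc']; exact H1 0 7 12 (by decide) (by decide))
    (by rw [cyc']; exact (H1 6 7 12 (by decide) (by decide)).le)
  have bz2 : 0 < o c z r2 := P2 _ _ (by rw [cyc]; exact H1 4 5 12 (by decide) (by decide))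
    (by rw [cyc]; exact H1 4 11 12 (by decide) (by decide))
  have b3w : 0 < o c r3 w := P1 _ _ (by rw [cyc']; exact H2 0 7 12 (by decide) (by decide))
    (by rw [cyc']; exact (H2 6 7 12 (by decide) (by decide)).le)
  have bw2 : 0 < o c w r2 := P2 _ _ (by rw [cyc]; exact H2 4 5 12 (by decide) (by decide))
    (by rw [cyc]; exact H2 4 11 12 (by decide) (by decide))
  have bt21 : 0 < o c t2 r1 := P2 _ _ (H1 1 2 5 (by decide) (by decide))
    (H1 1 2 11 (by decide) (by decide))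
  have bt22 : 0 < o c t2 r2 := P2 _ _ (H1 1 4 5 (by decide) (by decide))
    (H1 1 4 11 (by decide) (by decide))
  have b45 : 0 < o c t4 t5 := P2 _ _ (by rw [cyc']; exact H1 5 6 10 (by decide) (by decide))
    (H1 6 10 11 (by decide) (by decide))
  have b24 : 0 < o c t2 t4 := P1 _ _ (by rw [cyc']; exact H1 0 1 6 (by decide) (by decide))
    (by rw [o_last])
  have br14 : 0 < o c r1 t4 := P1 _ _ (by rw [cyc']; exact H1 0 2 6 (by decide) (by decide))
    (by rw [o_last])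
  have br24 : 0 < o c r2 t4 := P1 _ _ (by rw [cyc']; exact H1 0 4 6 (by decide) (by decide))
    (by rw [o_last])
  have br45 : 0 < o c r4 t5 := P1 _ _ (by rw [cyc']; exact H1 0 9 10 (by decide) (by decide))
    (by rw [cyc']; exact (H1 6 9 10 (by decide) (by decide)).le)
  have br35 : 0 < o c r3 t5 := P1 _ _ (by rw [cyc']; exact H1 0 7 10 (by decide) (by decide))
    (by rw [cyc']; exact (H1 6 7 10 (by decide) (by decide)).le)
  have bt44 : 0 < o c t4 r4 := P2 _ _ (by rw [cyc']; exact H1 5 6 9 (by decide) (by decide))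
    (H1 6 9 11 (by decide) (by decide))
  have bt43 : 0 < o c t4 r3 := P2 _ _ (by rw [cyc']; exact H1 5 6 7 (by decide) (by decide))
    (H1 6 7 11 (by decide) (by decide))
  have b25 : 0 ≤ o c t2 t5 := by
    have h1 := e2 t2 t5
    have h2 : o t1 t4 t6 * o t2 t5 t3 + o t1 t3 t4 * o t2 t5 t6 = -D t1 t2 t3 t4 t5 t6 := by
      unfold D o; ring
    rw [h2] at h1
    by_contra hcon
    push Not at hcon
    have h3 : (o t1 t3 t6 + o t3 t4 t6) * o c t2 t5 < 0 := mul_neg_of_pos_of_neg hS hcon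
    linarith
  -- from the Pluecker relation
  have Q1 : ∀ r, 0 < o c t2 r → 0 < o c r t4 → 0 < o c r t5 := by
    intro r h1 h2
    have h3 := pluck c t2 r t4 t5
    have h4 : 0 < o c t2 t4 * o c r t5 := by
      have h5 : o c t2 t4 * o c r t5 = o c t2 r * o c t4 t5 + o c t2 t5 * o c r t4 := by linarith
      rw [h5]
      have h6 : 0 < o c t2 r * o c t4 t5 := mul_pos h1 b45
      have h7 : 0 ≤ o c t2 t5 * o c r t4 := mul_nonneg b25 h2.le
      linarith
    exact (mul_pos_iff_of_pos_left b24).1 h4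
  have b15 := Q1 r1 bt21 br14
  have b2'5 := Q1 r2 bt22 br24
  have Q2 : ∀ r s, 0 < o c r t4 → 0 < o c r t5 → 0 < o c s t5 → 0 < o c t4 s → 0 < o c r s := by
    intro r s h1 h2 h3 h4
    have h5 := pluck c r t4 s t5
    have h6 : 0 < o c t4 t5 * o c r s := by
      have h7 : o c t4 t5 * o c r s = o c r t4 * o c s t5 + o c r t5 * o c t4 s := by linarith
      rw [h7]
      exact add_pos (mul_pos h1 h3) (mul_pos h2 h4)
    exact (mul_pos_iff_of_pos_left b45).1 h6
  exact ⟨⟨b12, Q2 r1 r3 br14 b15 br35 bt43, Q2 r1 r4 br14 b15 br45 bt44,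
    Q2 r2 r3 br24 b2'5 br35 bt43, Q2 r2 r4 br24 b2'5 br45 bt44, b34⟩,
    ⟨b1x, bx2⟩, ⟨b3y, by4⟩, ⟨bz2, b3z⟩, ⟨bw2, b3w⟩⟩

end Pool.Agent.W933.PT
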