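import Pool.Agent.W684.PT.Stm

/-!
# Project PT: symmetric permutations move finitely many points
-/

set_option autoImplicit false

namespace Pool.Agent.W933.PTFty

open Pool.Agent.W684.PT Equiv

variable {A : Type}

theorem her_trans {cd : A → Perm A} {x y z : A} (h1 : Her cd x y) (h2 : Her cd y z) :
    Her cd x z := by
  induction h2 with
  | base z h =>
    cases h1 with
    | base _ h' => exact Her.base z (h'.trans h)
    | step _ w h'' h3 => exact Her.step z w (by rw [← h]; exact h'') h3
  | step z u h _ ih => exact Her.step z u h ih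

theorem her_fin (S : Sol A) : ∀ e, {y | Her S.cd y e}.Finite := by
  refine S.ind _ fun e ih => ?_
  obtain ⟨y, z, -, h⟩ := S.three e
  have h1 : ({e, y, z} : Set A).Finite := Set.toFinite _
  have h2 : (⋃ w ∈ {w | S.cd e w ≠ w}, {y | Her S.cd y w}).Finite :=
    Set.Finite.biUnion (S.fty e) fun w hw => ih w hw
  refine (h1.union h2).subset ?_
  intro v hv
  have hv' : Her S.cd v e := hv
  cases hv' with
  | base _ h' =>
    left
    rcases h v h'.symm with h3 | h3 | h3
    · exact Or.inl h3
    · exact Or.inr (Or.inl h3)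
    · exact Or.inr (Or.inr h3)
  | step _ w h' h'' =>
    right
    rw [Set.mem_iUnion₂]
    exact ⟨w, h', h''⟩

theorem self_fix (S : Sol A) : ∀ x, S.cd x x = x := by
  refine S.ind _ fun x ih => ?_
  by_contra h
  exact h (ih x h)

theorem her_anti (S : Sol A) : ∀ y x, Her S.cd x y → S.cd x ≠ S.cd y → ¬ Her S.cd y x := by
  refine S.ind _ fun y ih => ?_
  intro x h hne hc
  cases h with
  | base _ h' => exact hne h'
  | step _ z hz h' =>
    have h1 := her_trans hc h'
    by_cases h2 : S.cd y = S.cd z
    · rw [h2] at hz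
      exact hz (self_fix S z)
    · exact ih z hz y h1 h2 (Her.step y z hz (Her.base z rfl))

theorem fty (hT : S_TWIST) : S_FTY := by
  intro A S π
  constructor
  · rintro ⟨E, hE⟩
    have hcom : ∀ g ∈ Aut S.cd, (∀ e ∈ E, g e = e) → ∀ v, g (π v) = π (g v) := by
      intro g hg hgE v
      have h1 := hE g hg hgE
      have h2 := congrArg (fun f : Perm A => f (g v)) h1
      simpa using h2
    have hthree : ∀ x x' : A, ∃ x1, S.cd x = S.cd x1 ∧ x1 ≠ x ∧ x1 ≠ x' := by
      intro x x'
      obtain ⟨y, z, ⟨h1, h2, h3, h4, h5, h6⟩, -⟩ := S.three x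
      by_cases h : y = x'
      · exact ⟨z, h2, Ne.symm h5, fun hc => h6 (h.trans hc.symm)⟩
      · exact ⟨y, h1, Ne.symm h4, h⟩
    have key : ∀ x, (∀ e ∈ E, ¬ Her S.cd x e) → π x = x := by
      intro x hx
      by_contra hne
      by_cases hA : S.cd (π x) = S.cd x ∨ ¬ Her S.cd x (π x)
      · obtain ⟨x1, h1, h2, h3⟩ := hthree x (π x)
        obtain ⟨g, hg, g1, g2, g3⟩ := hT A S x x1 h1 (Ne.symm h2)
        have h4 : g (π x) = π x := by
          rcases hA with h | h
          · exact g2 _ h hne (Ne.symm h3)
          · exact g3 _ h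
        have h5 := hcom g hg (fun e he => g3 e (hx e he)) x
        rw [h4, g1] at h5
        exact h2 (π.injective h5).symm
      · push Not at hA
        obtain ⟨hA1, hA2⟩ := hA
        obtain ⟨x1, h1, h2, -⟩ := hthree (π x) (π x)
        obtain ⟨g, hg, g1, g2, g3⟩ := hT A S (π x) x1 h1 (Ne.symm h2)
        have h4 : g x = x := g3 x (her_anti S (π x) x hA2 (Ne.symm hA1))
        have h5 := hcom g hg (fun e he => g3 e fun hc => hx e he (her_trans hA2 hc)) x
        rw [h4, g1] at h5
        exact h2 h5
    have hfin : (⋃ e ∈ E, {y | Her S.cd y e}).Finite :=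
      Set.Finite.biUnion E.finite_toSet fun e _ => her_fin S e
    refine hfin.subset ?_
    intro x hx
    by_contra hc
    apply hx
    apply key
    intro e he hce
    apply hc
    rw [Set.mem_iUnion₂]
    exact ⟨e, he, hce⟩
  · intro hπ
    refine ⟨hπ.toFinset, fun g _ hgE => ?_⟩
    have hmem : ∀ v, π v ≠ v → g v = v := fun v hv => hgE v (hπ.mem_toFinset.2 hv)
    have key : ∀ v, g (π v) = π (g v) := by
      intro v
      by_cases h1 : π v = v
      · rw [h1]
        by_contra h2
        have h3 : g (g v) = g v := hmem (g v) (Ne.symm h2)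
        have h4 : g v = v := g.injective h3
        rw [h4, h1] at h2
        exact h2 rfl
      · rw [hmem v h1]
        exact hmem (π v) fun hc => h1 (π.injective hc)
    ext u
    have h1 := key (g⁻¹ u)
    have h2 : g (g⁻¹ u) = u := g.apply_symm_apply u
    rw [h2] at h1
    exact h1

end Pool.Agent.W933.PTFty
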